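import Pool.Agent.E8helper11.GS.Stm

/-! # Project GS: HC -/

set_option autoImplicit false

open Filter Topology
open scoped Classical

namespace Pool.Agent.E8helper36.GS

open Pool.Agent.E8helper11.GS

lemma card_pf {i N : ℕ} (h0 : i ≠ 0) (h : i < 2 ^ N) : i.primeFactors.card < N := by
  have h1 : ∏ p ∈ i.primeFactors, p ≤ i := Nat.le_of_dvd (Nat.pos_of_ne_zero h0)
    (Nat.prod_primeFactors_dvd i)
  have h2 : 2 ^ i.primeFactors.card ≤ ∏ p ∈ i.primeFactors, p :=
    Finset.pow_card_le_prod _ _ _ fun p hp => (Nat.prime_of_mem_primeFactors hp).two_le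
  exact (Nat.pow_lt_pow_iff_right (by norm_num : 1 < 2)).1 ((h2.trans h1).trans_lt h)

theorem t_HC : S_HC := by
  intro j a k hj ha
  have hsub : (Cb k).filter (fun q => Hit j a q) ⊆
      (Finset.Ioc a (a + j ^ 2)).biUnion fun i => i.primeFactors := by
    intro q hq
    rw [Finset.mem_filter] at hq
    obtain ⟨hq1, i, h1, h2, h3⟩ := hq
    have hp : q.Prime := (Finset.mem_filter.1 hq1).2
    rw [Finset.mem_biUnion]
    exact ⟨i, Finset.mem_Ioc.2 ⟨h1, h2⟩, Nat.mem_primeFactors.2 ⟨hp, h3, by omega⟩⟩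
  refine (Finset.card_le_card hsub).trans ?_
  have hcard : ∀ i ∈ Finset.Ioc a (a + j ^ 2), i.primeFactors.card ≤ 4 * j := by
    intro i hi
    rw [Finset.mem_Ioc] at hi
    have h1 : j < 2 ^ j := Nat.lt_two_pow_self
    have h2 : j ^ 2 < 4 ^ j := by
      calc j ^ 2 < (2 ^ j) ^ 2 := Nat.pow_lt_pow_left h1 (by norm_num)
        _ = 4 ^ j := by rw [← pow_mul, mul_comm, pow_mul]; norm_num
    have h3 : (4 : ℕ) ^ (j + 1) = 2 ^ (2 * j + 2) := by
      rw [show 2 * j + 2 = 2 * (j + 1) by ring, pow_mul]; norm_num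
    have h4 : i < 2 ^ (2 * j + 2) := by
      rw [← h3, pow_succ]
      omega
    have := card_pf (by omega) h4
    omega
  calc ((Finset.Ioc a (a + j ^ 2)).biUnion fun i => i.primeFactors).card ≤
      (Finset.Ioc a (a + j ^ 2)).card * (4 * j) := Finset.card_biUnion_le_card_mul _ _ _ hcard
    _ = 4 * j ^ 3 := by
      rw [Nat.card_Ioc]
      have : a + j ^ 2 - a = j ^ 2 := by omega
      rw [this]
      ring

end Pool.Agent.E8helper36.GS
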